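import Pool.Agent.Lib.MP_688fd0_co.ASY.TB.Iface

/-!
RUNSA (helper82): the maximal runs of a cycle family outside a set.
-/

set_option autoImplicit false

namespace Pool.Agent.Lib.MP_688fd0_co.ASY.H82

open Classical
open Pool.Agent.Lib.MP_688fd0_co.LP (IsP Conn Cyc Symm cay)
open Pool.Agent.Lib.MP_688fd0_co.LIN

universe u

variable {V : Type u} [Fintype V]

/-- `H` restricted to the vertices outside `I` -/
def oG (H : SimpleGraph V) (I : V → Prop) : SimpleGraph V where
  Adj a b := H.Adj a b ∧ ¬ I a ∧ ¬ I b
  symm := ⟨fun _ _ h => ⟨h.1.symm, h.2.2, h.2.1⟩⟩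
  loopless := ⟨fun a h => H.loopless.irrefl a h.1⟩

theorem oG_le (H : SimpleGraph V) (I : V → Prop) : oG H I ≤ H := fun _ _ h => h.1

/-- a vertex of degree at most two has at most two neighbours -/
theorem two_nb {H : SimpleGraph V} {x a b y : V} (hd : dg H x ≤ 2) (ha : H.Adj x a) (hb : H.Adj x b)
    (hab : a ≠ b) (hy : H.Adj x y) : y = a ∨ y = b := by
  by_contra hc
  push Not at hc
  have h3 : ({a, b, y} : Finset V).card = 3 := by
    rw [Finset.card_insert_of_notMem, Finset.card_insert_of_notMem, Finset.card_singleton]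
    · simpa using hc.2.symm
    · simp only [Finset.mem_insert, Finset.mem_singleton, not_or]
      exact ⟨hab, hc.1.symm⟩
  have hs : ({a, b, y} : Finset V) ⊆ Finset.univ.filter (fun w => H.Adj x w) := by
    intro z hz
    simp only [Finset.mem_insert, Finset.mem_singleton] at hz
    simp only [Finset.mem_filter, Finset.mem_univ, true_and]
    rcases hz with rfl | rfl | rfl <;> assumption
  have := Finset.card_le_card hs
  unfold dg at hd
  omega

/-- a vertex with degree two has a neighbour different from a given one -/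
theorem other_nb {H : SimpleGraph V} {x a : V} (hd : dg H x = 2) : ∃ u, H.Adj x u ∧ u ≠ a := by
  by_contra hc
  push Not at hc
  have hs : Finset.univ.filter (fun w => H.Adj x w) ⊆ {a} := by
    intro z hz
    simp only [Finset.mem_filter, Finset.mem_univ, true_and] at hz
    simp [hc z hz]
  have := Finset.card_le_card hs
  unfold dg at hd
  simp at this
  omega

theorem deg_two {G H : SimpleGraph V} (h : CF G H) {x y : V} (ha : H.Adj x y) : dg H x = 2 := by
  rcases h.deg x with h0 | h2
  · exfalso
    unfold dg at h0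
    rw [Finset.card_eq_zero] at h0
    have : y ∈ Finset.univ.filter (fun w => H.Adj x w) := by simp [ha]
    rw [h0] at this
    simp at this
  · exact h2

/-- a longest chain from a given vertex -/
theorem exists_longest (J : SimpleGraph V) (e : V) : ∃ P : List V, P.IsChain J.Adj ∧ P.Nodup ∧
    P.head? = some e ∧ ∀ y, J.Adj (P.getLast?.getD e) y → y ∈ P := by
  let p : ℕ → Prop := fun n => ∃ P : List V, P.IsChain J.Adj ∧ P.Nodup ∧ P.head? = some e ∧ P.length = n
  have h1 : p 1 := ⟨[e], by simp, by simp, by simp, by simp⟩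
  have hc : 1 ≤ Fintype.card V := Fintype.card_pos_iff.2 ⟨e⟩
  obtain ⟨P, c1, c2, c3, c4⟩ := Nat.findGreatest_spec (P := p) hc h1
  refine ⟨P, c1, c2, c3, fun y hy => ?_⟩
  by_contra hn
  have hne : P ≠ [] := by
    rintro rfl
    simp at c3
  have hp : p (P.length + 1) := by
    refine ⟨P ++ [y], ?_, ?_, ?_, by simp⟩
    · rw [List.isChain_append]
      refine ⟨c1, by simp, ?_⟩
      intro a ha b hb
      simp only [List.head?_cons, Option.mem_def, Option.some.injEq] at hb
      subst hb
      rw [Option.mem_def] at ha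
      rw [ha] at hy
      simpa using hy
    · rw [List.nodup_append]
      refine ⟨c2, by simp, ?_⟩
      intro a ha b hb
      simp only [List.mem_singleton] at hb
      subst hb
      rintro rfl
      exact hn ha
    · rw [List.head?_append, c3]; rfl
  have hle : P.length + 1 ≤ Fintype.card V := by
    obtain ⟨Q, -, q2, -, q4⟩ := hp
    rw [← q4]
    exact q2.length_le_card
  exact Nat.findGreatest_is_greatest (P := p) (by rw [← c4]; omega) hle hp

/-- a good list for a component of the outside graph -/
structure Good (H : SimpleGraph V) (I : V → Prop) (P : List V) : Prop where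
  chain : P.IsChain H.Adj
  nodup : P.Nodup
  len : 2 ≤ P.length
  out : ∀ v ∈ P, ¬ I v
  ends : ∀ v, IsEnd P v → ∃ u, H.Adj v u ∧ I u

theorem good_of {G H : SimpleGraph V} (I : V → Prop) (hcf : CF G H) {e u0 v0 v1 : V}
    (he : H.Adj e u0) (hu0 : I u0) (h0 : (oG H I).Reachable e v0) (h1 : (oG H I).Adj v0 v1) :
    ∃ P, Good H I P ∧ ∀ x, x ∈ P ↔ (oG H I).Reachable v0 x := by
  obtain ⟨P, c1, c2, c3, c4⟩ := exists_longest (oG H I) e
  have hne : P ≠ [] := by
    rintro rfl
    simp at c3
  have hpos : 0 < P.length := List.length_pos_of_ne_nil hne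
  have hz : P[0] = e := by
    have := List.head?_eq_getElem? (l := P)
    rw [c3, List.getElem?_eq_getElem hpos] at this
    exact (Option.some.inj this).symm
  have hlast : P.getLast?.getD e = P[P.length - 1] := by
    rw [List.getLast?_eq_getElem?, List.getElem?_eq_getElem (by omega)]
    rfl
  rw [hlast] at c4
  have cadj : ∀ i (hi : i + 1 < P.length), (oG H I).Adj P[i] P[i + 1] := by
    intro i hi
    exact List.isChain_iff_getElem.1 c1 i hi
  have inj : ∀ i j (hi : i < P.length) (hj : j < P.length), P[i] = P[j] → i = j := by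
    intro i j hi hj h
    exact (List.Nodup.getElem_inj_iff c2).1 h
  -- closedness
  have closed : ∀ x ∈ P, ∀ y, (oG H I).Adj x y → y ∈ P := by
    intro x hx y hxy
    obtain ⟨i, hi, rfl⟩ := List.getElem_of_mem hx
    have hd := (deg_two hcf hxy.1).le
    rcases Nat.eq_or_lt_of_le (Nat.succ_le_of_lt hi) with hl | hl
    · have : i = P.length - 1 := by omega
      subst this
      exact c4 y hxy
    · rcases Nat.eq_zero_or_pos i with rfl | hi0
      · have a1 := cadj 0 hl
        have hu : H.Adj P[0] u0 := by rw [hz]; exact he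
        rcases two_nb hd hu a1.1 (by rintro rfl; exact a1.2.2 hu0) hxy.1 with h | h
        · exact absurd hu0 (h ▸ hxy.2.2)
        · rw [h]; exact List.getElem_mem _
      · have a1 := cadj i hl
        have a2 := cadj (i - 1) (by omega)
        have e1 : i - 1 + 1 = i := by omega
        simp only [e1] at a2
        rcases two_nb hd a2.1.symm a1.1 (fun h => by
          have := inj _ _ _ _ h; omega) hxy.1 with h | h
        · rw [h]; exact List.getElem_mem _
        · rw [h]; exact List.getElem_mem _
  have reach : ∀ i (hi : i < P.length), (oG H I).Reachable e P[i] := by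
    intro i
    induction i with
    | zero => intro hi; rw [hz]
    | succ i ih => intro hi; exact (ih (by omega)).trans (cadj i hi).reachable
  have mem_of : ∀ x, (oG H I).Reachable e x → x ∈ P := by
    intro x hx
    obtain ⟨w⟩ := hx
    have key : ∀ a b (w : (oG H I).Walk a b), a ∈ P → b ∈ P := by
      intro a b w
      induction w with
      | nil => exact id
      | cons h _ ih => intro ha; exact ih (closed _ ha _ h)
    exact key _ _ w (by rw [← hz]; exact List.getElem_mem _)
  have hiff : ∀ x, x ∈ P ↔ (oG H I).Reachable e x := by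
    intro x
    refine ⟨fun hx => ?_, mem_of x⟩
    obtain ⟨i, hi, rfl⟩ := List.getElem_of_mem hx
    exact reach i hi
  have hlen : 2 ≤ P.length := by
    by_contra hlt
    have h01 : P.length = 1 := by omega
    have m0 := (hiff v0).2 h0
    have m1 := (hiff v1).2 (h0.trans h1.reachable)
    obtain ⟨i, hi, e0⟩ := List.getElem_of_mem m0
    obtain ⟨j, hj, e1⟩ := List.getElem_of_mem m1
    have : i = j := by omega
    subst this
    exact h1.ne (e0.symm.trans e1)
  have out : ∀ v ∈ P, ¬ I v := by
    intro v hv
    obtain ⟨i, hi, rfl⟩ := List.getElem_of_mem hv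
    rcases Nat.eq_zero_or_pos i with rfl | hi0
    · exact (cadj 0 (by omega)).2.1
    · have a2 := cadj (i - 1) (by omega)
      have e1 : i - 1 + 1 = i := by omega
      simp only [e1] at a2
      exact a2.2.2
  refine ⟨P, ⟨c1.imp (fun _ _ h => h.1), c2, hlen, out, ?_⟩, fun x => ?_⟩
  · intro v hv
    rcases hv with hv | hv
    · rw [c3] at hv
      obtain rfl := Option.some.inj hv
      exact ⟨u0, he, hu0⟩
    · rw [List.getLast?_eq_getElem?, List.getElem?_eq_getElem (by omega)] at hv
      obtain rfl := Option.some.inj hv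
      have a2 := cadj (P.length - 2) (by omega)
      have e1 : P.length - 2 + 1 = P.length - 1 := by omega
      simp only [e1] at a2
      obtain ⟨u, hu, hne2⟩ := other_nb (a := P[P.length - 2]) (deg_two hcf a2.1.symm)
      by_contra hcon
      push Not at hcon
      have hIu := hcon u hu
      have hJ : (oG H I).Adj P[P.length - 1] u := ⟨hu, a2.2.2, hIu⟩
      have hm := closed _ (List.getElem_mem _) u hJ
      obtain ⟨j, hj, rfl⟩ := List.getElem_of_mem hm
      have hj1 : j ≠ P.length - 1 := by
        intro h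
        subst h
        exact H.loopless.irrefl _ hu
      have hj2 : j ≠ P.length - 2 := by
        intro h
        subst h
        exact hne2 rfl
      have b1 := cadj j (by omega)
      have hd := (deg_two hcf b1.1).le
      rcases Nat.eq_zero_or_pos j with rfl | hj0
      · have hu : H.Adj P[0] u0 := by rw [hz]; exact he
        rcases two_nb hd hu b1.1 (by rintro rfl; exact b1.2.2 hu0) hJ.1.symm with h | h
        · rw [h] at a2
          exact a2.2.2 hu0
        · have := inj _ _ _ _ h
          omega
      · have b2 := cadj (j - 1) (by omega)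
        have e1 : j - 1 + 1 = j := by omega
        simp only [e1] at b2
        rcases two_nb hd b2.1.symm b1.1 (fun h => by
          have := inj _ _ _ _ h; omega) hJ.1.symm with h | h
        · have := inj _ _ _ _ h
          omega
        · have := inj _ _ _ _ h
          omega
  · rw [hiff]
    exact ⟨fun h => h0.symm.trans h, fun h => h0.trans h⟩

theorem exit {H : SimpleGraph V} (I : V → Prop) {v u : V} (w : H.Walk v u) : ¬ I v → I u →
    ∃ e u', (oG H I).Reachable v e ∧ H.Adj e u' ∧ I u' := by
  induction w with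
  | nil => intro h1 h2; exact absurd h2 h1
  | @cons a b c h w ih =>
    intro h1 h2
    by_cases hb : I b
    · exact ⟨a, b, SimpleGraph.Reachable.refl _, h, hb⟩
    · obtain ⟨e, u', r1, r2, r3⟩ := ih hb h2
      have : (oG H I).Adj a b := ⟨h, h1, hb⟩
      exact ⟨e, u', this.reachable.trans r1, r2, r3⟩

/-- a good list with a given set of vertices -/
noncomputable def gl (H : SimpleGraph V) (I : V → Prop) (S : Set V) : List V :=
  if h : ∃ P, Good H I P ∧ ∀ x, x ∈ P ↔ x ∈ S then h.choose else []

theorem gl_spec {H : SimpleGraph V} {I : V → Prop} {S : Set V}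
    (h : ∃ P, Good H I P ∧ ∀ x, x ∈ P ↔ x ∈ S) : Good H I (gl H I S) ∧ ∀ x, x ∈ gl H I S ↔ x ∈ S := by
  unfold gl
  rw [dif_pos h]
  exact h.choose_spec

/-- RUNSA -/
theorem runsa : RunsaStatement.{u} := by
  intro V _ G H I hcf _
  let U : V → Prop := fun v => ¬ I v ∧ (∃ u, H.Adj v u ∧ ¬ I u) ∧ ∃ u, H.Reachable v u ∧ I u
  let f : V → List V := fun v => gl H I {x | (oG H I).Reachable v x}
  have hf : ∀ v, U v → Good H I (f v) ∧ ∀ x, x ∈ f v ↔ (oG H I).Reachable v x := by
    intro v hv
    obtain ⟨hv1, ⟨u, hu1, hu2⟩, ⟨z, ⟨w⟩, hz2⟩⟩ := hv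
    obtain ⟨e, u', r1, r2, r3⟩ := exit I w hv1 hz2
    exact gl_spec (good_of I hcf r2 r3 r1.symm (show (oG H I).Adj v u from ⟨hu1, hv1, hu2⟩))
  refine ⟨(Finset.univ.filter U).image f, ?_, ?_, ?_⟩
  · intro P hP
    obtain ⟨v, hv, rfl⟩ := Finset.mem_image.1 hP
    have hU : U v := (Finset.mem_filter.1 hv).2
    obtain ⟨g, m⟩ := hf v hU
    refine ⟨g.chain, g.nodup, g.len, g.out, g.ends, fun x hx => ?_⟩
    obtain ⟨u, hu1, hu2⟩ := hU.2.2
    exact ⟨u, (((m x).1 hx).mono (oG_le H I)).symm.trans hu1, hu2⟩
  · intro P hP Q hQ hne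
    obtain ⟨v, hv, rfl⟩ := Finset.mem_image.1 hP
    obtain ⟨v', hv', rfl⟩ := Finset.mem_image.1 hQ
    obtain ⟨g, m⟩ := hf v (Finset.mem_filter.1 hv).2
    obtain ⟨g', m'⟩ := hf v' (Finset.mem_filter.1 hv').2
    intro x hx hx'
    apply hne
    have r1 := (m x).1 hx
    have r2 := (m' x).1 hx'
    have : {x | (oG H I).Reachable v x} = {x | (oG H I).Reachable v' x} := by
      ext y
      exact ⟨fun h => (r2.trans r1.symm).trans h, fun h => (r1.trans r2.symm).trans h⟩
    simp only [f, this]
  · intro v h1 h2 h3
    have hU : U v := ⟨h1, h2, h3⟩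
    obtain ⟨g, m⟩ := hf v hU
    exact ⟨f v, Finset.mem_image.2 ⟨v, by simpa using hU, rfl⟩, (m v).2 (SimpleGraph.Reachable.refl _)⟩

end Pool.Agent.Lib.MP_688fd0_co.ASY.H82
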